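import Pool.Agent.W610.HY.Fin
import Pool.Agent.W22.HY.NZ2

/-!
# Resolvents of polynomials of an operator, and vectors with large local spectrum
-/

set_option autoImplicit false

open MeasureTheory Metric Set Filter Topology Polynomial

namespace Pool.Agent.X240.LE

variable {X : Type} [NormedAddCommGroup X] [NormedSpace ℂ X]

lemma le_exp_posLog {x : ℝ} (hx : 0 ≤ x) : x ≤ Real.exp (Real.posLog x) := by
  rcases hx.eq_or_lt with h | h
  · rw [← h]; exact (Real.exp_pos _).le
  · calc x = Real.exp (Real.log x) := (Real.exp_log h).symm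
      _ ≤ Real.exp (Real.posLog x) := by
        rw [Real.posLog_apply]
        exact Real.exp_le_exp.2 (le_max_right _ _)

/-- products of linear factors -/
theorem prod_inv (T : X →L[ℂ] X) (B : ℝ) (m : Multiset ℂ)
    (hm : ∀ z ∈ m, z ∉ spectrum ℂ T ∧ Real.posLog ‖resolvent T z‖ ≤ B) :
    ∃ R : X →L[ℂ] X, R * aeval T (m.map (fun z => Polynomial.X - C z)).prod = 1 ∧
      aeval T (m.map (fun z => Polynomial.X - C z)).prod * R = 1 ∧
      ‖R‖ ≤ Real.exp (B * Multiset.card m) := by
  induction m using Multiset.induction_on with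
  | empty =>
    refine ⟨1, by simp, by simp, ?_⟩
    have h1 : ‖(1 : X →L[ℂ] X)‖ ≤ 1 := ContinuousLinearMap.norm_id_le
    simpa using h1
  | cons a m ih =>
    obtain ⟨R, h1, h2, h3⟩ := ih (fun z hz => hm z (Multiset.mem_cons_of_mem hz))
    obtain ⟨ha, hB⟩ := hm a (Multiset.mem_cons_self a m)
    have hu : IsUnit (algebraMap ℂ (X →L[ℂ] X) a - T) := spectrum.notMem_iff.mp ha
    have e1 : resolvent T a * (algebraMap ℂ (X →L[ℂ] X) a - T) = 1 := Ring.inverse_mul_cancel _ hu
    have e2 : (algebraMap ℂ (X →L[ℂ] X) a - T) * resolvent T a = 1 := Ring.mul_inverse_cancel _ hu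
    have e3 : aeval T ((a ::ₘ m).map (fun z => Polynomial.X - C z)).prod =
        -((algebraMap ℂ (X →L[ℂ] X) a - T) *
          aeval T (m.map (fun z => Polynomial.X - C z)).prod) := by
      rw [Multiset.map_cons, Multiset.prod_cons, map_mul, map_sub, aeval_X, aeval_C, ← neg_mul,
        neg_sub]
    set P := aeval T (m.map (fun z => Polynomial.X - C z)).prod with hP
    refine ⟨-(R * resolvent T a), ?_, ?_, ?_⟩
    · rw [e3, neg_mul_neg, mul_assoc, ← mul_assoc (resolvent T a), e1, one_mul, h1]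
    · rw [e3, neg_mul_neg, mul_assoc, ← mul_assoc P, h2, one_mul, e2]
    · rw [norm_neg]
      calc ‖R * resolvent T a‖ ≤ ‖R‖ * ‖resolvent T a‖ := norm_mul_le _ _
        _ ≤ Real.exp (B * Multiset.card m) * Real.exp B := by
            gcongr
            exact (le_exp_posLog (norm_nonneg _)).trans (Real.exp_le_exp.2 hB)
        _ = Real.exp (B * Multiset.card (a ::ₘ m)) := by
            rw [← Real.exp_add, Multiset.card_cons]
            congr 1
            push_cast
            ring

/-- the resolvent of a polynomial of `T` -/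
theorem res_poly (T : X →L[ℂ] X) (p : ℂ[X]) (hp : 0 < p.natDegree) (w : ℂ) (B : ℝ)
    (h : ∀ z : ℂ, p.eval z = w → z ∉ spectrum ℂ T ∧ Real.posLog ‖resolvent T z‖ ≤ B) :
    w ∉ spectrum ℂ (aeval T p) ∧ Real.posLog ‖resolvent (aeval T p) w‖ ≤
      Real.posLog ‖p.leadingCoeff⁻¹‖ + B * p.natDegree := by
  set q : ℂ[X] := p - C w with hq
  have hn : q.natDegree = p.natDegree := natDegree_sub_C
  have hq0 : q ≠ 0 := by
    intro h0
    rw [h0, natDegree_zero] at hn
    omega
  have hlead : q.leadingCoeff = p.leadingCoeff := by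
    apply leadingCoeff_sub_of_degree_lt
    exact lt_of_le_of_lt degree_C_le (natDegree_pos_iff_degree_pos.1 hp)
  have hsp : q.Splits := IsAlgClosed.splits q
  have hprod := hsp.eq_prod_roots
  have hcard : Multiset.card q.roots = p.natDegree := by
    rw [← hn]; exact hsp.natDegree_eq_card_roots.symm
  have hm : ∀ z ∈ q.roots, z ∉ spectrum ℂ T ∧ Real.posLog ‖resolvent T z‖ ≤ B := by
    intro z hz
    apply h
    have := (mem_roots hq0).1 hz
    rw [IsRoot.def, hq, eval_sub, eval_C, sub_eq_zero] at this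
    exact this
  obtain ⟨R, h1, h2, h3⟩ := prod_inv T B q.roots hm
  have hB : 0 ≤ B := by
    have hpos : 0 < Multiset.card q.roots := by omega
    obtain ⟨z, hz⟩ := Multiset.card_pos_iff_exists_mem.1 hpos
    exact Real.posLog_nonneg.trans (hm z hz).2
  have hl0 : p.leadingCoeff ≠ 0 := by
    rw [← hlead]; exact leadingCoeff_ne_zero.2 hq0
  set P := aeval T (q.roots.map (fun z => Polynomial.X - C z)).prod with hP
  have e0 : aeval T q = p.leadingCoeff • P := by
    conv_lhs => rw [hprod]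
    rw [map_mul, aeval_C, hlead, Algebra.smul_def]
  have e1 : algebraMap ℂ (X →L[ℂ] X) w - aeval T p = -(p.leadingCoeff • P) := by
    rw [← e0, hq, map_sub, aeval_C, neg_sub]
  let u : (X →L[ℂ] X)ˣ :=
    { val := algebraMap ℂ (X →L[ℂ] X) w - aeval T p
      inv := -(p.leadingCoeff⁻¹ • R)
      val_inv := by
        rw [e1, neg_mul_neg, smul_mul_smul_comm, h2, mul_inv_cancel₀ hl0, one_smul]
      inv_val := by
        rw [e1, neg_mul_neg, smul_mul_smul_comm, h1, inv_mul_cancel₀ hl0, one_smul] }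
  refine ⟨spectrum.notMem_iff.mpr u.isUnit, ?_⟩
  have e2 : resolvent (aeval T p) w = -(p.leadingCoeff⁻¹ • R) := by
    show Ring.inverse (u : X →L[ℂ] X) = _
    rw [Ring.inverse_unit]
    rfl
  rw [e2, norm_neg, norm_smul]
  refine Real.posLog_mul.trans ?_
  gcongr
  have h4 : Real.posLog ‖R‖ ≤ Real.posLog (Real.exp (B * p.natDegree)) := by
    rw [← hcard]
    exact Real.posLog_le_posLog (norm_nonneg _) h3
  refine h4.trans ?_
  rw [Real.posLog_apply, Real.log_exp]
  exact max_le (by positivity) le_rfl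

variable [CompleteSpace X]

/-- a vector whose local spectrum contains a given boundary point of the spectrum -/
theorem exists_vec (S : X →L[ℂ] X) (c : ℂ) (hcs : c ∈ spectrum ℂ S)
    (hcl : c ∈ closure (resolventSet ℂ S)) :
    ∃ x : X, ¬ ∃ (δ : ℝ) (F : ℂ → X), 0 < δ ∧ DifferentiableOn ℂ F (ball c δ) ∧
      ∀ z ∈ ball c δ, z • F z - S (F z) = x := by
  obtain ⟨w, hw, hlim⟩ := mem_closure_iff_seq_limit.mp hcl
  by_contra hcon
  push Not at hcon
  apply Pool.Agent.W610.HY.Cor.glob_aux Pool.Agent.W19.HY.RES.main S c hcs w hw hlim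
  apply banach_steinhaus
  intro x
  obtain ⟨δ, F, hδ, hF, h⟩ := hcon x
  have hev : ∀ᶠ n in atTop, ‖F (w n)‖ = ‖resolvent S (w n) x‖ := by
    filter_upwards [hlim.eventually (ball_mem_nhds c hδ)] with n hn
    have hu : IsUnit (algebraMap ℂ (X →L[ℂ] X) (w n) - S) := hw n
    have e1 : resolvent S (w n) * (algebraMap ℂ (X →L[ℂ] X) (w n) - S) = 1 :=
      Ring.inverse_mul_cancel _ hu
    have e2 : resolvent S (w n) ((algebraMap ℂ (X →L[ℂ] X) (w n) - S) (F (w n))) = F (w n) :=
      DFunLike.congr_fun e1 (F (w n))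
    have e3 : (algebraMap ℂ (X →L[ℂ] X) (w n) - S) (F (w n)) = x := h (w n) hn
    rw [← e2, e3]
  have hlimF : Tendsto (fun n => ‖resolvent S (w n) x‖) atTop (𝓝 ‖F c‖) := by
    have hc : ContinuousAt F c := (hF.continuousOn).continuousAt (ball_mem_nhds c hδ)
    exact ((hc.tendsto.comp hlim).norm).congr' hev
  obtain ⟨C, hC⟩ := hlimF.bddAbove_range
  exact ⟨C, fun n => hC (mem_range_self n)⟩

/-- a functional whose local spectrum contains a given boundary point of the spectrum -/
theorem exists_fun (S : X →L[ℂ] X) (c : ℂ) (hcs : c ∈ spectrum ℂ S)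
    (hcl : c ∈ closure (resolventSet ℂ S)) :
    ∃ y : X →L[ℂ] ℂ, ¬ ∃ (δ : ℝ) (G : ℂ → (X →L[ℂ] ℂ)), 0 < δ ∧
      DifferentiableOn ℂ G (ball c δ) ∧ ∀ z ∈ ball c δ, z • G z - (G z).comp S = y := by
  obtain ⟨w, hw, hlim⟩ := mem_closure_iff_seq_limit.mp hcl
  by_contra hcon
  push Not at hcon
  apply Pool.Agent.W610.HY.Cor.glob_aux Pool.Agent.W19.HY.RES.main S c hcs w hw hlim
  have hbs : ∃ C : ℝ, ∀ n, ‖(ContinuousLinearMap.compL ℂ X X ℂ).flip (resolvent S (w n))‖ ≤ C := by
    apply banach_steinhaus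
    intro y
    obtain ⟨δ, G, hδ, hG, h⟩ := hcon y
    have hev : ∀ᶠ n in atTop, ‖G (w n)‖ =
        ‖(ContinuousLinearMap.compL ℂ X X ℂ).flip (resolvent S (w n)) y‖ := by
      filter_upwards [hlim.eventually (ball_mem_nhds c hδ)] with n hn
      have hu : IsUnit (algebraMap ℂ (X →L[ℂ] X) (w n) - S) := hw n
      have e1 : (algebraMap ℂ (X →L[ℂ] X) (w n) - S) * resolvent S (w n) = 1 :=
        Ring.mul_inverse_cancel _ hu
      have e3 : (G (w n)).comp (algebraMap ℂ (X →L[ℂ] X) (w n) - S) = y := by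
        rw [← h (w n) hn]
        ext v
        show G (w n) (w n • v - S v) = w n • G (w n) v - G (w n) (S v)
        rw [map_sub, map_smul]
      have e4 : y.comp (resolvent S (w n)) = G (w n) := by
        rw [← e3]
        ext v
        exact congrArg (G (w n)) (DFunLike.congr_fun e1 v)
      show ‖G (w n)‖ = ‖y.comp (resolvent S (w n))‖
      rw [e4]
    have hlimG : Tendsto (fun n =>
        ‖(ContinuousLinearMap.compL ℂ X X ℂ).flip (resolvent S (w n)) y‖) atTop (𝓝 ‖G c‖) := by
      have hc : ContinuousAt G c := (hG.continuousOn).continuousAt (ball_mem_nhds c hδ)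
      exact ((hc.tendsto.comp hlim).norm).congr' hev
    obtain ⟨C, hC⟩ := hlimG.bddAbove_range
    exact ⟨C, fun n => hC (mem_range_self n)⟩
  obtain ⟨C, hC⟩ := hbs
  have hC0 : 0 ≤ C := (norm_nonneg _).trans (hC 0)
  refine ⟨C, fun n => ?_⟩
  apply ContinuousLinearMap.opNorm_le_bound _ hC0
  intro x
  apply NormedSpace.norm_le_dual_bound ℂ _ (by positivity)
  intro f
  have h1 : f (resolvent S (w n) x) =
      ((ContinuousLinearMap.compL ℂ X X ℂ).flip (resolvent S (w n)) f) x := rfl
  rw [h1]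
  calc ‖((ContinuousLinearMap.compL ℂ X X ℂ).flip (resolvent S (w n)) f) x‖
      ≤ ‖(ContinuousLinearMap.compL ℂ X X ℂ).flip (resolvent S (w n)) f‖ * ‖x‖ :=
        ContinuousLinearMap.le_opNorm _ _
    _ ≤ (‖(ContinuousLinearMap.compL ℂ X X ℂ).flip (resolvent S (w n))‖ * ‖f‖) * ‖x‖ := by
        gcongr
        exact ContinuousLinearMap.le_opNorm _ _
    _ ≤ (C * ‖f‖) * ‖x‖ := by
        gcongr
        exact hC n
    _ = C * ‖x‖ * ‖f‖ := by ring

/-- boundary points of the spectrum inside the circle -/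
theorem exists_bd (S : X →L[ℂ] X) (c : ℂ) (r : ℝ) (a : ℂ) (ha : a ∈ spectrum ℂ S)
    (har : ‖a - c‖ < r)
    (h : ∀ᵐ θ ∂(volume.restrict (Ioc (0:ℝ) (2 * Real.pi))), circleMap c r θ ∉ spectrum ℂ S) :
    ∃ b, ‖b - c‖ < r ∧ b ∈ spectrum ℂ S ∧ b ∈ closure (resolventSet ℂ S) := by
  have hr : 0 < r := lt_of_le_of_lt (norm_nonneg _) har
  have hne : NeBot (ae (volume.restrict (Ioc (0:ℝ) (2 * Real.pi)))) := by
    rw [ae_neBot, Ne, Measure.restrict_eq_zero, Real.volume_Ioc]
    simp [Real.pi_pos]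
  obtain ⟨θ, hθ⟩ := h.exists
  have hopen : IsOpen (resolventSet ℂ S) := spectrum.isOpen_resolventSet (𝕜 := ℂ) S
  have hmem : circleMap c r θ ∈ resolventSet ℂ S := by
    by_contra hc
    exact hθ hc
  have hcl : circleMap c r θ ∈ closure (ball c r) := by
    rw [closure_ball c hr.ne']
    exact sphere_subset_closedBall (circleMap_mem_sphere c hr.le θ)
  obtain ⟨w, hw1, hw2⟩ := mem_closure_iff.1 hcl _ hopen hmem
  by_contra hcon
  push Not at hcon
  have hpre : IsPreconnected (ball c r) := (convex_ball c r).isPreconnected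
  obtain ⟨z, hz1, hz2, hz3⟩ := hpre (interior (spectrum ℂ S)) (resolventSet ℂ S) isOpen_interior
    hopen (by
      intro z hz
      by_cases hzs : z ∈ spectrum ℂ S
      · left
        have h1 := hcon z (by rwa [mem_ball, dist_eq_norm] at hz) hzs
        have h2 : (closure (resolventSet ℂ S))ᶜ = interior (spectrum ℂ S) := by
          rw [← interior_compl]
          rfl
        rw [← h2]
        exact h1
      · right
        by_contra hc
        exact hzs hc)
    ⟨a, by rwa [mem_ball, dist_eq_norm], by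
      have h1 := hcon a har ha
      have h2 : (closure (resolventSet ℂ S))ᶜ = interior (spectrum ℂ S) := by
        rw [← interior_compl]
        rfl
      rw [← h2]
      exact h1⟩
    ⟨w, hw2, hw1⟩
  exact (interior_subset hz2) hz3

end Pool.Agent.X240.LE
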